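import Mathlib
import Pool.Agent.EvM.Unit

/-!
# Stark's conjecture for real quadratic fields: every modulus with a given set of primes
-/

open NumberField Module Pool.Agent.SLow Pool.Agent.EvM

namespace Pool.Agent.Results.MP_343f43_nt.EveryModulus

section

variable {K : Type} [Field K] [NumberField K]

/-- The prime divisors of the ideal `m ≠ 0` are exactly the primes of `K` over `D`. -/
def HasPrimes (D : ℤ) (m : Ideal (𝓞 K)) : Prop :=
  m ≠ ⊥ ∧ ∀ 𝔮 : Ideal (𝓞 K), 𝔮.IsPrime → 𝔮 ≠ ⊥ → (𝔮 ∣ m ↔ (D : 𝓞 K) ∈ 𝔮)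

/-- For every abelian extension `H/K` in the ray class field of modulus `m ∞₂`, real under `i` over
`ι₁` (`InRay ι₁ ι₂ m i`), conditions 1, 2, 3 of the question hold for `H/K` and `S` = prime factors
of `m` and infinite places, with `exp (- 2 ^ (k + 1) ζ'(0, σ))` in condition 1, and all square roots
of the units are in one abelian extension of `K` (`StarkFor true (2 ^ k) ι₂ m i`). For `k = 0` (and
`H` the ray class field) this is the question as posed, with Tate's condition. -/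
def Q1At (k : ℕ) (ι₁ ι₂ : K →+* ℝ) (m : Ideal (𝓞 K)) : Prop :=
  ∀ (H : Type) [Field H] [NumberField H] [Algebra K H] [IsAbelianGalois K H] (i : H →+* ℂ),
    InRay ι₁ ι₂ m i → StarkFor true (2 ^ k) ι₂ m i

end

/-- Let `K = ℚ(√d)` be a real quadratic field, `d > 1` squarefree, such that every ideal class
contains an ideal `𝔟` with `𝔟² = (b)`, `b ∣ d` (`RamifiedClasses`; for example class number one);
if `d ≡ 5` modulo `8`, let some `(a + b √d) / 2` with `a` odd have norm `±1`. Put `c = 4` if `d` is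
odd and `c = 2` if `d` is even, `im (x + y √d) = y`, `h` = class number.

(1) Let `h c ≤ 8`. Then `Q1At 0 m` for **every** ideal `m` whose prime divisors are exactly the
primes over `2 d` and which divides `c √d`; and if `d ≡ 3` modulo `8`, or `d ≢ 1` modulo `8` and
`ℤ[√d]` has a unit of norm `-1`, for **every** ideal `m` whose prime divisors are exactly the primes
over `2 d` and which is not divisible by `𝔮²` for primes `𝔮` not over `2`.

(2) Let `P` be a finite set of primes `q ∤ 2 d` for which the numbers `r q = (q - (d/q)) / 2` are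
pairwise coprime, let `g` be a unit of norm `1` of `ℤ[√d]` with `c ∣ im g`, such that `r q` is the
least `n > 0` with `q ∣ im (g ^ n)`, for all `q ∈ P` (`Further`), and let
`im (g ^ ∏ r q) = c ∏ q w`.
Let `δ = 0`, or `δ = 1` if some unit `e` of `ℤ[√d]` has norm `-1` or `c ∤ im e`, and let
`h c 2^#P ≤ 2 ^ (2 k + 3 + δ)`. Then `Q1At k m` for **every** ideal `m` whose prime divisors are
exactly the primes over `2 d ∏ q`, if for all primes `p` the part of `m` over `p` divides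
`c √d ∏ q` or `p ∤ w` (and `d ≢ 6` modulo `9` if `p = 3`). -/
theorem result {d : ℤ} (hd1 : 1 < d) (hsf : Squarefree d)
    (h5 : d % 8 = 5 → ∃ a b : ℤ, Odd a ∧ (a ^ 2 - d * b ^ 2 = 4 ∨ a ^ 2 - d * b ^ 2 = -4))
    {K : Type} [Field K] [NumberField K] (hK : finrank ℚ K = 2) {x : 𝓞 K}
    (hx : x ^ 2 = (d : 𝓞 K)) (hcl : RamifiedClasses d K) {c : ℕ}
    (hc : d % 2 = 1 ∧ c = 4 ∨ d % 2 = 0 ∧ c = 2) {ι₁ ι₂ : K →+* ℝ} (hι : ι₁ ≠ ι₂) :
    (classNumber K * c ≤ 8 → ∀ m : Ideal (𝓞 K), HasPrimes (2 * d) m →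
      (m ∣ Ideal.span {((c : ℤ) : 𝓞 K) * x} ∨
        (d % 8 = 3 ∨ d % 8 ≠ 1 ∧ ∃ e : ℤ√d, e.norm = -1) ∧
          ∀ 𝔮 : Ideal (𝓞 K), 𝔮.IsPrime → 𝔮 ^ 2 ∣ m → (2 : 𝓞 K) ∈ 𝔮) → Q1At 0 ι₁ ι₂ m) ∧
    (∀ (P : Finset ℕ) (r : ℕ → ℕ) (g : ℤ√d) (w : ℤ), Further d g P r → g.norm = 1 →
      (c : ℤ) ∣ g.im → (g ^ (∏ q ∈ P, r q)).im = c * (∏ q ∈ P, (q : ℤ)) * w →
      ∀ k δ : ℕ, (δ = 0 ∨ δ = 1 ∧ ∃ e : ℤ√d, IsUnit e ∧ (e.norm = -1 ∨ ¬ (c : ℤ) ∣ e.im)) →
      classNumber K * c * 2 ^ P.card ≤ 2 ^ (2 * k + 3 + δ) →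
      ∀ m : Ideal (𝓞 K), HasPrimes (2 * d * ∏ q ∈ P, (q : ℤ)) m →
        (∀ p : ℕ, p.Prime →
          PartDvd p m (Ideal.span {((c * ∏ q ∈ P, (q : ℤ) : ℤ) : 𝓞 K) * x}) ∨
            ¬ (p : ℤ) ∣ w ∧ (p = 3 → d % 9 ≠ 6)) → Q1At k ι₁ ι₂ m) := by
  constructor
  · rintro hk m ⟨hm0, hm⟩ hm2 H _ _ _ _ i hi
    refine tame hd1 hsf h5 hK hx hcl hc hk hι hm0 hm (fun p hp => ?_) i hi
    rcases hm2 with hm2 | ⟨h8, hm2⟩
    · exact Or.inl fun 𝔮 _ _ e he => he.trans hm2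
    · by_cases hp2 : p = 2
      · exact Or.inr ⟨hp2, h8⟩
      left
      intro 𝔮 h𝔮 hp𝔮 e he
      have h2 : (2 : 𝓞 K) ∉ 𝔮 := by
        intro h2
        have hco : IsCoprime (p : ℤ) 2 := by
          have h3 : Nat.Coprime p 2 := (Nat.coprime_primes hp Nat.prime_two).2 hp2
          exact Nat.isCoprime_iff_coprime.2 h3
        obtain ⟨a, b, hab⟩ := hco
        apply h𝔮.ne_top
        rw [Ideal.eq_top_iff_one]
        have h7 : (1 : 𝓞 K) = (a : 𝓞 K) * (p : 𝓞 K) + (b : 𝓞 K) * (2 : 𝓞 K) := by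
          rw [← Int.cast_one (R := 𝓞 K), ← hab]
          push_cast
          ring
        rw [h7]
        exact 𝔮.add_mem (𝔮.mul_mem_left _ hp𝔮) (𝔮.mul_mem_left _ h2)
      have h0 : 𝔮 ≠ ⊥ := by
        rintro rfl
        have h3 : (p : 𝓞 K) = 0 := hp𝔮
        exact hp.ne_zero (by exact_mod_cast h3)
      have hx𝔮 : 𝔮 ∣ m → 𝔮 ∣ Ideal.span {((c : ℤ) : 𝓞 K) * x} := by
        intro h
        have h3 := (hm 𝔮 h𝔮 h0).1 h
        push_cast at h3
        rw [← hx, pow_two] at h3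
        rw [Ideal.dvd_span_singleton]
        refine 𝔮.mul_mem_left _ ?_
        rcases h𝔮.mem_or_mem h3 with h4 | h4
        · exact absurd h4 h2
        · rcases h𝔮.mem_or_mem h4 with h5 | h5 <;> exact h5
      rcases Nat.lt_or_ge e 2 with h3 | h3
      · rcases Nat.lt_or_ge e 1 with h4 | h4
        · obtain rfl : e = 0 := by omega
          rw [pow_zero]
          exact one_dvd _
        · obtain rfl : e = 1 := by omega
          rw [pow_one] at he ⊢
          exact hx𝔮 he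
      · exact absurd (hm2 𝔮 h𝔮 ((pow_dvd_pow 𝔮 h3).trans he)) h2
  · rintro P r g w hF hg hgc hgw k δ hδ hk m ⟨hm0, hm⟩ hwild H _ _ _ _ i hi
    exact family hd1 hsf h5 hK hx hcl hF hg hc hδ hk hgc hgw hι hm0 hm hwild i hi

end Pool.Agent.Results.MP_343f43_nt.EveryModulus
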