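import Mathlib
import Pool.Agent.StarkRQ.KleinG.Complete

/-!
# Stark's conjecture for real quadratic fields: commutator group in a Klein four group, all levels
-/

open NumberField Module Pool.Agent.StarkRQ

namespace Pool.Agent.Results.MP_343f43_nt.KleinCase

/-- Let `K` be a real quadratic field, `M/ℚ` Galois and abelian over `K`, `K ⊆ H ⊆ M` (for example
`M` the Galois closure over `ℚ` of an abelian extension `H` of `K`), such that the commutator subgroup
of `Gal(M/ℚ)` has order at most `4` and exponent at most `2`. Let `H` be real under the embedding `ι`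
of `M`, `ι₂` the other embedding of `K`. Let `N ≥ 2` be divisible by all primes ramified in `M`, and let
`H` be contained in the ray class field of `K` of modulus `(N)∞₂`.
Then the zeta functions `Z σ` of the classes `σ ∈ Gal(H/K)` for `S = {∞₁, ∞₂, primes dividing N}`
exist (as differentiable functions on `ℂ - {1}`), and there are units `ε σ` of `H`, equal to
`exp(-2 ζ'(0, σ))` under `ι`, permuted by `Gal(H/K)`, and of absolute value `1` at all embeddings of `H`
which differ from `ι` on `K`. -/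
theorem result {K H M : Type} [Field K] [NumberField K] [Field H] [NumberField H] [Field M]
    [NumberField M] [Algebra K H] [Algebra K M] [Algebra H M] [IsScalarTower K H M]
    [IsTotallyReal K] (hK : finrank ℚ K = 2) [IsGalois ℚ M] [IsAbelianGalois K M]
    (hv : ∀ v ∈ commutator Gal(M/ℚ), v * v = 1) (hV : Nat.card (commutator Gal(M/ℚ)) ≤ 4)
    (ι : M →+* ℂ) (hH : ∀ y : H, (ι (algebraMap H M y)).im = 0)
    {N : ℕ} (hN : 2 ≤ N) (hram : ∀ p : ℕ, p.Prime → (p : ℤ) ∣ discr M → p ∣ N)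
    (ι₂ : K →+* ℝ) (hι₂ : ∃ x : K, ((ι₂ x : ℝ) : ℂ) ≠ ι (algebraMap K M x))
    (hmodH : ∀ a : 𝓞 K, (N : 𝓞 K) ∣ a - 1 → 0 < ι₂ (a : K) →
      HasArtinSymbol (Ideal.span {a}) (1 : Gal(H/K))) :
    ∃ (Z : Gal(H/K) → ℂ → ℂ) (ε : Gal(H/K) → (𝓞 H)ˣ),
      (∀ σ, IsPartialZeta N σ (Z σ) ∧
        ι (algebraMap H M (ε σ : 𝓞 H)) = Complex.exp (-2 * deriv (Z σ) 0)) ∧
      (∀ ρ σ, ρ ((ε σ : 𝓞 H) : H) = ((ε (ρ * σ) : 𝓞 H) : H)) ∧
      ∀ g : H →+* ℂ, (∃ x : K, g (algebraMap K H x) ≠ ι (algebraMap K M x)) →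
        ∀ σ, ‖g ((ε σ : 𝓞 H) : H)‖ = 1 :=
  KleinG.klein_complete hK hv hV ι hH hN hram ι₂ hι₂ hmodH

end Pool.Agent.Results.MP_343f43_nt.KleinCase
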