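import Mathlib
import Pool.Agent.StarkRQ.OctG.Power

/-!
# Stark's conjecture for real quadratic fields: closures with central squares
-/

open NumberField Module Pool.Agent.StarkRQ

namespace Pool.Agent.Results.MP_343f43_nt.OctCase

/-- Let `K` be a real quadratic field, `H/K` abelian, `M/ℚ` Galois, `K ⊆ H ⊆ M` (for example `M`
the Galois closure of `H`), such that the squares in `G = Gal(M/ℚ)` are central, and let `m` be such
that the center of `G` has index at most `32 * 4^m`. Let `H` be real under the embedding `ι` of `M`,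
`ι₂` the other embedding of `K`. Let `N` be even and divisible by all primes ramified in `M`, and let
`H` be contained in the ray class field of `K` of modulus `(N)∞₂`.
Then the zeta functions `Z σ` of the classes `σ ∈ Gal(H/K)` for `S = {∞₁, ∞₂, primes dividing N}`
exist (as differentiable functions on `ℂ - {1}`), and there are units `ε σ` of `H`, equal to
`exp(-2^(m+1) ζ'(0, σ))` under `ι`, permuted by `Gal(H/K)`, with all their square roots in one
abelian extension of `K`, and of absolute value `1` at all embeddings of `H` which differ from `ι` on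
`K`. For `m = 0`, that is `[G : Z] ≤ 32`, these are the units predicted by Stark and Tate.
-/
theorem result {K H M : Type} [Field K] [NumberField K] [Field H] [NumberField H] [Field M]
    [NumberField M] [Algebra K H] [Algebra K M] [Algebra H M] [IsScalarTower K H M]
    [IsTotallyReal K] (hK : finrank ℚ K = 2) [IsAbelianGalois K H] [IsGalois ℚ M]
    (hsq : ∀ g h : Gal(M/ℚ), g * g * h = h * (g * g))
    {m : ℕ} (hidx : (Subgroup.center Gal(M/ℚ)).index ≤ 32 * 4 ^ m)
    (ι : M →+* ℂ) (hH : ∀ y : H, (ι (algebraMap H M y)).im = 0)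
    {N : ℕ} (hN0 : N ≠ 0) (hN2 : 2 ∣ N)
    (hram : ∀ p : ℕ, p.Prime → (p : ℤ) ∣ discr M → p ∣ N)
    (ι₂ : K →+* ℝ) (hι₂ : ∃ x : K, ((ι₂ x : ℝ) : ℂ) ≠ ι (algebraMap K M x))
    (hmodH : ∀ a : 𝓞 K, (N : 𝓞 K) ∣ a - 1 → 0 < ι₂ (a : K) →
      HasArtinSymbol (Ideal.span {a}) (1 : Gal(H/K))) :
    ∃ (Z : Gal(H/K) → ℂ → ℂ) (ε : Gal(H/K) → (𝓞 H)ˣ),
      (∀ σ, IsPartialZeta N σ (Z σ) ∧
        ι (algebraMap H M (ε σ : 𝓞 H)) = Complex.exp (-2 ^ (m + 1) * deriv (Z σ) 0)) ∧
      (∀ ρ σ, ρ ((ε σ : 𝓞 H) : H) = ((ε (ρ * σ) : 𝓞 H) : H)) ∧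
      (∃ (E : Type) (_ : Field E) (_ : Algebra K E) (_ : Algebra H E) (_ : IsScalarTower K H E),
        IsAbelianGalois K E ∧ ∀ σ, ∃ y : E, y ^ 2 = algebraMap H E ((ε σ : 𝓞 H) : H)) ∧
      ∀ g : H →+* ℂ, (∃ x : K, g (algebraMap K H x) ≠ ι (algebraMap K M x)) →
        ∀ σ, ‖g ((ε σ : 𝓞 H) : H)‖ = 1 :=
  OctG.all_power hK hsq hidx ι hH hN0 hN2 hram ι₂ hι₂ hmodH

end Pool.Agent.Results.MP_343f43_nt.OctCase
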