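import Mathlib
import Pool.Agent.StarkU.ExactN

/-!
# Stark's conjecture for real quadratic fields: the case of Shintani, exact sets of primes
-/

open NumberField Module Pool.Agent.StarkRQ Pool.Agent.HeckeM

namespace Pool.Agent.Results.MP_343f43_nt.ShintaniExact

/-- Let `M/ℚ` be Galois, `K` a real and `k` an imaginary quadratic field with `M` abelian over `K`
and over `k`. Let `K ⊆ H ⊆ M` with `H` real under the embedding `ι` of `M`, and let `ι₂` be the other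
embedding of `K`. Let `m` be an ideal of `K` such that `H` is contained in the ray class field of `K`
of modulus `m ∞₂` (hypotheses `hur`, `hmod`) and such that

* (a) all primes of `K` over some prime number divide `m`,
* (b) the primes of `K` over the prime numbers which are ramified in `K` and not in `k` divide `m`,
* (c) if `𝔮` divides `m` and `𝔮'` does not, both over the same prime number, then `𝔮` is
  ramified in `H`.

Let `𝔫 ≠ 0` be a multiple of `m`. Then the conjecture (conditions 1, 2, 3 of the question and the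
condition of Tate) holds for `H/K` and `S = {∞₁, ∞₂, prime factors of 𝔫}`: the zeta functions `Z σ`
of the classes `σ ∈ Gal(H/K)` exist (as differentiable functions on `ℂ - {1}`), and there are units
`ε σ` of `H`, equal to `exp(-2 ζ'(0, σ))` under `ι`, permuted by `Gal(H/K)`, of absolute value `1` at
all embeddings of `H` over `ι₂`, and with all their square roots in one abelian extension of `K`. -/
theorem result {M : Type} [Field M] [NumberField M] [IsGalois ℚ M]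
    {K k H : Type} [Field K] [NumberField K] [Field k] [NumberField k] [Field H] [NumberField H]
    [Algebra K M] [Algebra k M] [Algebra K H] [Algebra H M] [IsScalarTower K H M]
    [IsTotallyReal K] [IsTotallyComplex k] (hK : finrank ℚ K = 2) (hk : finrank ℚ k = 2)
    [IsAbelianGalois K M] [IsAbelianGalois k M] (ι : M →+* ℂ)
    (hH : ∀ y : H, (ι (algebraMap H M y)).im = 0)
    (ι₂ : K →+* ℝ) (hι₂ : ∃ x : K, ((ι₂ x : ℝ) : ℂ) ≠ ι (algebraMap K M x))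
    {m 𝔫 : Ideal (𝓞 K)} (h0 : 𝔫 ≠ ⊥) (hmn : m ∣ 𝔫)
    (hur : ∀ 𝔓 : Ideal (𝓞 H), 𝔓.IsPrime → 𝔓 ≠ ⊥ →
      ¬ 𝔓.comap (algebraMap (𝓞 K) (𝓞 H)) ∣ m →
      ¬ 𝔓 ^ 2 ∣ (𝔓.comap (algebraMap (𝓞 K) (𝓞 H))).map (algebraMap (𝓞 K) (𝓞 H)))
    (hmod : ∀ α : 𝓞 K, α - 1 ∈ m → 0 < ι₂ (α : K) →
      HasArtinSymbol (Ideal.span {α}) (1 : Gal(H/K)))
    (ha : ∃ p : ℕ, p.Prime ∧ ∀ 𝔮 : Ideal (𝓞 K), 𝔮.IsPrime → (p : 𝓞 K) ∈ 𝔮 → 𝔮 ∣ m)
    (hb : ∀ p : ℕ, p.Prime → (p : ℤ) ∣ discr K → ¬ (p : ℤ) ∣ discr k → ∀ 𝔮 : Ideal (𝓞 K),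
      𝔮.IsPrime → (p : 𝓞 K) ∈ 𝔮 → 𝔮 ∣ m)
    (hc : ∀ 𝔮 𝔮' : Ideal (𝓞 K), 𝔮.IsPrime → 𝔮'.IsPrime → 𝔮 ∣ m → ¬ 𝔮' ∣ m →
      (∃ p : ℕ, p.Prime ∧ (p : 𝓞 K) ∈ 𝔮 ∧ (p : 𝓞 K) ∈ 𝔮') →
      ∃ 𝔓 : Ideal (𝓞 H), 𝔓.IsPrime ∧ 𝔓.comap (algebraMap (𝓞 K) (𝓞 H)) = 𝔮 ∧
        𝔓 ^ 2 ∣ 𝔮.map (algebraMap (𝓞 K) (𝓞 H))) :
    ∃ (Z : Gal(H/K) → ℂ → ℂ) (ε : Gal(H/K) → (𝓞 H)ˣ),
      (∀ σ, IsPZ 𝔫 σ (Z σ) ∧
        ι (algebraMap H M (ε σ : 𝓞 H)) = Complex.exp (-2 * deriv (Z σ) 0)) ∧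
      (∀ ρ σ, ρ ((ε σ : 𝓞 H) : H) = ((ε (ρ * σ) : 𝓞 H) : H)) ∧
      (∀ g : H →+* ℂ, (∀ x : K, g (algebraMap K H x) = ι₂ x) →
        ∀ σ, ‖g ((ε σ : 𝓞 H) : H)‖ = 1) ∧
      ∃ (E : Type) (_ : Field E) (_ : Algebra K E) (_ : Algebra H E) (_ : IsScalarTower K H E),
        IsAbelianGalois K E ∧ ∀ σ, ∃ y : E, y ^ 2 = algebraMap H E ((ε σ : 𝓞 H) : H) :=
  StarkU.exact_final hK hk ι hH ι₂ hι₂ h0 hmn hur hmod ha hb hc

end Pool.Agent.Results.MP_343f43_nt.ShintaniExact
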